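import Pool.Agent.W67.MR.MV1

set_option autoImplicit false

/-!
# Mean values of Dirichlet polynomials, second form
-/

open Finset Filter Topology MeasureTheory

namespace Pool.Agent.W462.MR

open Pool.Agent.W200.MR Pool.Agent.W67.MR

lemma int_le {θ : ℝ} (h : θ ≠ 0) (a b : ℝ) : ‖∫ t in a..b, E θ t‖ ≤ 2 / |θ| := by
  rw [E_int h, norm_div, norm_mul, Complex.norm_I, mul_one, Complex.norm_real, Real.norm_eq_abs]
  have h2 : ‖E θ b - E θ a‖ ≤ 2 := by
    calc ‖E θ b - E θ a‖ ≤ ‖E θ b‖ + ‖E θ a‖ := norm_sub_le _ _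
      _ = 2 := by rw [E_norm, E_norm]; norm_num
  have hθ : 0 < |θ| := abs_pos.mpr h
  gcongr

lemma log_diff {k l N : ℕ} (hl : 1 ≤ l) (hlk : l < k) (hk : k ≤ N) :
    ((k : ℝ) - l) / N ≤ Real.log k - Real.log l := by
  have hl0 : (0 : ℝ) < l := by exact_mod_cast hl
  have hk0 : (0 : ℝ) < k := by exact_mod_cast (by omega : 0 < k)
  have hkN : (k : ℝ) ≤ N := by exact_mod_cast hk
  have hlk' : (l : ℝ) < k := by exact_mod_cast hlk
  rw [← Real.log_div hk0.ne' hl0.ne']
  have h1 := Real.one_sub_inv_le_log_of_pos (div_pos hk0 hl0)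
  rw [inv_div] at h1
  refine le_trans ?_ h1
  have h2 : 1 - (l : ℝ) / k = (k - l) / k := by field_simp
  rw [h2]
  apply div_le_div_of_nonneg_left _ hk0 hkN
  linarith

lemma int_kl {k l N : ℕ} (hN : 1 ≤ N) (hk1 : 1 ≤ k) (hl1 : 1 ≤ l) (hk : k ≤ N) (hl : l ≤ N)
    (S : ℝ) (hS : 1 ≤ S) :
    ‖∫ t in S..(2 * S), E (Real.log k - Real.log l) t‖ ≤
      (if l = k then S else 0) + (if l < k then 2 * (N : ℝ) * (1 / ((k - l : ℕ) : ℝ)) else 0) +
      (if k < l then 2 * (N : ℝ) * (1 / ((l - k : ℕ) : ℝ)) else 0) := by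
  have hN0 : (0 : ℝ) < N := by exact_mod_cast hN
  rcases lt_trichotomy l k with h | h | h
  · rw [if_neg h.ne, if_pos h, if_neg (by omega), zero_add, add_zero]
    have h1 := log_diff hl1 h hk
    have hd : (0 : ℝ) < (k : ℝ) - l := by
      have : (l : ℝ) < k := by exact_mod_cast h
      linarith
    have h0 : 0 < ((k : ℝ) - l) / N := div_pos hd hN0
    have h2 : 0 < Real.log k - Real.log l := lt_of_lt_of_le h0 h1
    refine (int_le h2.ne' _ _).trans ?_
    rw [abs_of_pos h2, Nat.cast_sub h.le]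
    calc 2 / (Real.log k - Real.log l) ≤ 2 / (((k : ℝ) - l) / N) := by gcongr
      _ = 2 * (N : ℝ) * (1 / ((k : ℝ) - l)) := by field_simp
  · subst h
    rw [if_pos rfl, if_neg (lt_irrefl _), add_zero, add_zero, sub_self]
    have e : ∀ t, E 0 t = 1 := by
      intro t
      simp [E]
    simp only [e]
    rw [intervalIntegral.integral_const]
    have e2 : 2 * S - S = S := by ring
    rw [e2, norm_smul, norm_one, mul_one, Real.norm_eq_abs, abs_of_pos (by linarith)]
  · rw [if_neg h.ne', if_neg (by omega), if_pos h, zero_add, zero_add]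
    have h1 := log_diff hk1 h hl
    have hd : (0 : ℝ) < (l : ℝ) - k := by
      have : (k : ℝ) < l := by exact_mod_cast h
      linarith
    have h0 : 0 < ((l : ℝ) - k) / N := div_pos hd hN0
    have h2 : 0 < Real.log l - Real.log k := lt_of_lt_of_le h0 h1
    have h3 : Real.log k - Real.log l ≠ 0 := by
      intro h4
      linarith
    refine (int_le h3 _ _).trans ?_
    rw [abs_sub_comm, abs_of_pos h2, Nat.cast_sub h.le]
    calc 2 / (Real.log l - Real.log k) ≤ 2 / (((l : ℝ) - k) / N) := by gcongr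
      _ = 2 * (N : ℝ) * (1 / ((l : ℝ) - k)) := by field_simp

lemma harm (N : ℕ) : ∑ j ∈ Icc 1 N, (1 / (j : ℝ)) ≤ 1 + Real.log N := by
  have h1 := harmonic_le_one_add_log N
  rw [harmonic_eq_sum_Icc] at h1
  push_cast at h1
  simpa only [one_div] using h1

lemma sum1 (N k : ℕ) (hk : k ≤ N) :
    ∑ l ∈ Icc 1 N, (if l < k then 1 / ((k - l : ℕ) : ℝ) else 0) ≤ 1 + Real.log N := by
  rw [← sum_filter]
  have h1 : ∑ l ∈ (Icc 1 N).filter (fun l => l < k), 1 / ((k - l : ℕ) : ℝ) =
      ∑ j ∈ ((Icc 1 N).filter (fun l => l < k)).image (fun l => k - l), 1 / (j : ℝ) := by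
    rw [sum_image]
    intro a ha b hb hab
    simp only [coe_filter, mem_Icc, Set.mem_ofPred_eq] at ha hb hab
    omega
  rw [h1]
  refine (sum_le_sum_of_subset_of_nonneg ?_ fun i _ _ => by positivity).trans (harm N)
  intro j hj
  simp only [mem_image, mem_filter, mem_Icc] at hj ⊢
  obtain ⟨l, hl, rfl⟩ := hj
  omega

lemma sum2 (N k : ℕ) (hk : 1 ≤ k) :
    ∑ l ∈ Icc 1 N, (if k < l then 1 / ((l - k : ℕ) : ℝ) else 0) ≤ 1 + Real.log N := by
  rw [← sum_filter]
  have h1 : ∑ l ∈ (Icc 1 N).filter (fun l => k < l), 1 / ((l - k : ℕ) : ℝ) =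
      ∑ j ∈ ((Icc 1 N).filter (fun l => k < l)).image (fun l => l - k), 1 / (j : ℝ) := by
    rw [sum_image]
    intro a ha b hb hab
    simp only [coe_filter, mem_Icc, Set.mem_ofPred_eq] at ha hb hab
    omega
  rw [h1]
  refine (sum_le_sum_of_subset_of_nonneg ?_ fun i _ _ => by positivity).trans (harm N)
  intro j hj
  simp only [mem_image, mem_filter, mem_Icc] at hj ⊢
  obtain ⟨l, hl, rfl⟩ := hj
  omega

theorem t_MV2 : S_MV2 := by
  intro c hc N S hN hS
  have hN0 : (0 : ℝ) < N := by exact_mod_cast hN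
  have hfun : ((∫ t in S..(2 * S), ‖∑ k ∈ Icc 1 N, c k * pw t k‖ ^ 2 : ℝ) : ℂ) =
      ∑ k ∈ Icc 1 N, ∑ l ∈ Icc 1 N, c k * (starRingEnd ℂ) (c l) *
      (∫ t in S..(2 * S), E (Real.log k - Real.log l) t) := by
    rw [← intervalIntegral.integral_ofReal]
    simp only [expand]
    have hci : ∀ (k l : ℕ), Continuous fun t : ℝ =>
        c k * (starRingEnd ℂ) (c l) * E (Real.log k - Real.log l) t := fun k l =>
      continuous_const.mul (E_cont _)
    rw [intervalIntegral.integral_finsetSum (fun k _ =>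
      (continuous_finsetSum _ fun l _ => hci k l).intervalIntegrable _ _)]
    refine Finset.sum_congr rfl fun k _ => ?_
    rw [intervalIntegral.integral_finsetSum (fun l _ => (hci k l).intervalIntegrable _ _)]
    refine Finset.sum_congr rfl fun l _ => ?_
    rw [intervalIntegral.integral_const_mul]
  have h1 : ∫ t in S..(2 * S), ‖∑ k ∈ Icc 1 N, c k * pw t k‖ ^ 2 ≤
      ∑ k ∈ Icc 1 N, ∑ l ∈ Icc 1 N, ‖∫ t in S..(2 * S), E (Real.log k - Real.log l) t‖ := by
    calc ∫ t in S..(2 * S), ‖∑ k ∈ Icc 1 N, c k * pw t k‖ ^ 2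
        ≤ ‖((∫ t in S..(2 * S), ‖∑ k ∈ Icc 1 N, c k * pw t k‖ ^ 2 : ℝ) : ℂ)‖ := by
          rw [Complex.norm_real]
          exact Real.le_norm_self _
      _ ≤ ∑ k ∈ Icc 1 N, ∑ l ∈ Icc 1 N,
          ‖∫ t in S..(2 * S), E (Real.log k - Real.log l) t‖ := by
          rw [hfun]
          refine (norm_sum_le _ _).trans (sum_le_sum fun k _ => ?_)
          refine (norm_sum_le _ _).trans (sum_le_sum fun l _ => ?_)
          rw [norm_mul, norm_mul, RCLike.norm_conj]
          have h2 : ‖c k‖ * ‖c l‖ ≤ 1 := mul_le_one₀ (hc k) (norm_nonneg _) (hc l)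
          exact mul_le_of_le_one_left (norm_nonneg _) h2
  refine h1.trans ?_
  have h2 : ∀ k ∈ Icc 1 N, ∑ l ∈ Icc 1 N, ‖∫ t in S..(2 * S), E (Real.log k - Real.log l) t‖ ≤
      S + 4 * N * (1 + Real.log N) := by
    intro k hk
    rw [mem_Icc] at hk
    calc ∑ l ∈ Icc 1 N, ‖∫ t in S..(2 * S), E (Real.log k - Real.log l) t‖
        ≤ ∑ l ∈ Icc 1 N, ((if l = k then S else 0) +
          (if l < k then 2 * (N : ℝ) * (1 / ((k - l : ℕ) : ℝ)) else 0) +
          (if k < l then 2 * (N : ℝ) * (1 / ((l - k : ℕ) : ℝ)) else 0)) := by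
          refine sum_le_sum fun l hl => ?_
          rw [mem_Icc] at hl
          exact int_kl hN hk.1 hl.1 hk.2 hl.2 S hS
      _ = S + 2 * N * (∑ l ∈ Icc 1 N, (if l < k then 1 / ((k - l : ℕ) : ℝ) else 0)) +
          2 * N * (∑ l ∈ Icc 1 N, (if k < l then 1 / ((l - k : ℕ) : ℝ) else 0)) := by
          rw [sum_add_distrib, sum_add_distrib, mul_sum, mul_sum]
          congr 1
          · congr 1
            · rw [sum_ite_eq', if_pos (mem_Icc.2 hk)]
            · refine sum_congr rfl fun l _ => ?_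
              split_ifs <;> simp
          · refine sum_congr rfl fun l _ => ?_
            split_ifs <;> simp
      _ ≤ S + 2 * N * (1 + Real.log N) + 2 * N * (1 + Real.log N) := by
          gcongr
          · exact sum1 N k hk.2
          · exact sum2 N k hk.1
      _ = S + 4 * N * (1 + Real.log N) := by ring
  calc ∑ k ∈ Icc 1 N, ∑ l ∈ Icc 1 N, ‖∫ t in S..(2 * S), E (Real.log k - Real.log l) t‖
      ≤ ∑ _k ∈ Icc 1 N, (S + 4 * N * (1 + Real.log N)) := sum_le_sum h2
    _ = S * N + 4 * (N : ℝ) ^ 2 * (1 + Real.log N) := by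
        rw [sum_const, Nat.card_Icc, nsmul_eq_mul]
        push_cast
        ring

end Pool.Agent.W462.MR
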